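import Pool.Agent.H19.QC.Core
import Pool.Agent.H19.QT.Ns
import Pool.Agent.H32.AA.One

set_option autoImplicit false

/-!
Adapter (MP_a46c6f_co, target (C)): a critical code whose rooted minors have trees as graphs has length five.
-/

namespace Pool.Agent.H19.QC

open Finset Pool.Agent.H98.Code Pool.Agent.H19.QT
open Pool.Agent.H19.QM (W N sg)
open Pool.Agent.H32.AA (IsMat adj_iff)

variable {V : Type} [Fintype V] [DecidableEq V]
variable {L : Submodule (ZMod 2) (V → K)} {e : V} {D : V → K} {P : Finset (Finset V)}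

/-- a set of vertices of the minor with one edge to the root and no other outgoing edges is everything -/
theorem part_full (h : Hyp L e D) (hP : IsParts L e D P) {M0 : Finset V} (hM0 : M0 ∈ P)
    {t : Finset V → V} (ht : ∀ M ∈ P.erase M0, t M ∈ M) (heW : ∀ M ∈ P.erase M0, e ∉ M)
    {H : W (P.erase M0) → W (P.erase M0) → ZMod 2} (hH : IsMat (N L D (P.erase M0) t) H)
    (S : Finset (W (P.erase M0))) (hS : S.Nonempty) (heS : (⟨e, heW⟩ : W (P.erase M0)) ∉ S)
    (hcut : ∀ x ∈ S, ∀ y, y ∉ S → y ≠ ⟨e, heW⟩ → H x y = 0)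
    (hodd : ∑ x ∈ S, H ⟨e, heW⟩ x = 1) : ∀ x, x ≠ ⟨e, heW⟩ → x ∈ S := by
  classical
  have hT := toParts hP
  have hQ : P.erase M0 ⊆ P := Finset.erase_subset _ _
  have inM0 : ∀ w : W (P.erase M0), w ≠ ⟨e, heW⟩ → w.1 ∈ M0 := by
    intro w hw
    have hwe : w.1 ≠ e := fun h0 => hw (Subtype.ext h0)
    obtain ⟨M, hM, hwM⟩ := hP.cover w.1 hwe
    by_contra hne
    refine w.2 M (Finset.mem_erase.2 ⟨?_, hM⟩) hwM
    rintro rfl
    exact hne hwM
  -- the total word of the part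
  set tw : W (P.erase M0) → K := fun w => pw D e M0 w.1 with htw
  have htwN : tw ∈ N L D (P.erase M0) t := by
    refine ⟨pw D e M0, (hP.mem M0 hM0).2.2, ?_, rfl⟩
    intro v hv
    obtain ⟨M, hM, hvM⟩ := (Pool.Agent.H19.QM.nmem_range_iff _ v).1 hv
    have hve : v ≠ e := fun h0 => heW M hM (h0 ▸ hvM)
    have hvM0 : v ∉ M0 := fun h0 =>
      Finset.disjoint_left.1 (hP.disj M (hQ hM) M0 hM0 (Finset.ne_of_mem_erase hM)) hvM h0
    have : pw D e M0 v = 0 := by
      unfold pw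
      rw [if_neg hve, if_neg hvM0]
    rw [this, kf_zero_left]
  have htw0 : tw ⟨e, heW⟩ = z := by simp [htw, pw]
  have htw1 : ∀ w, w ≠ (⟨e, heW⟩ : W (P.erase M0)) → tw w = D w.1 := by
    intro w hw
    have hwe : w.1 ≠ e := fun h0 => hw (Subtype.ext h0)
    show pw D e M0 w.1 = _
    unfold pw
    rw [if_neg hwe, if_pos (inM0 w hw)]
  -- the word of `S`
  set u : W (P.erase M0) → K := fun v => (if v ∈ S then 1 else 0, ∑ x ∈ S, H v x) with hu
  have huN : u ∈ N L D (P.erase M0) t := by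
    rw [hH.2]
    intro v
    show ∑ x ∈ S, H v x = ∑ w, H v w * (if w ∈ S then 1 else 0)
    simp [mul_ite, Finset.sum_ite_mem]
  have huS : ∀ x ∈ S, u x = D x.1 := by
    intro x hx
    have hxe : x ≠ ⟨e, heW⟩ := fun h0 => heS (h0 ▸ hx)
    rw [← htw1 x hxe]
    apply Prod.ext
    · show (if x ∈ S then (1 : ZMod 2) else 0) = _
      rw [if_pos hx, htw1 x hxe]
      exact (h.letter x.1 (fun h0 => hxe (Subtype.ext h0))).symm
    · rw [(hH.2 tw).1 htwN x, (hH.2 u).1 huN x]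
      refine Finset.sum_congr rfl fun w _ => ?_
      show H x w * (if w ∈ S then (1 : ZMod 2) else 0) = _
      by_cases hwS : w ∈ S
      · have hwe : w ≠ ⟨e, heW⟩ := fun h0 => heS (h0 ▸ hwS)
        rw [if_pos hwS, htw1 w hwe, h.letter w.1 (fun h0 => hwe (Subtype.ext h0))]
      · rw [if_neg hwS]
        by_cases hwe : w = ⟨e, heW⟩
        · rw [hwe, htw0]; simp [z]
        · rw [hcut x hx w hwS hwe]; simp
  have hu0 : ∀ y, y ∉ S → y ≠ ⟨e, heW⟩ → u y = 0 := by
    intro y hy hye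
    apply Prod.ext
    · show (if y ∈ S then (1 : ZMod 2) else 0) = 0
      rw [if_neg hy]
    · show ∑ x ∈ S, H y x = 0
      apply Finset.sum_eq_zero
      intro x hx
      rw [hH.1 y x]
      exact hcut x hx y hy hye
  have hue : (u ⟨e, heW⟩).1 = 0 := by
    show (if (⟨e, heW⟩ : W (P.erase M0)) ∈ S then (1 : ZMod 2) else 0) = 0
    rw [if_neg heS]
  obtain ⟨u', hu'L, hus, hu'⟩ := huN
  have hval : ∀ w, u' w.1 = u w := fun w => (congrFun hu' w).symm
  have hu'e : (u' e).1 = 0 := by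
    have := hval ⟨e, heW⟩
    rw [this]; exact hue
  have hk : KD L D e u' := by
    refine ⟨hu'L, ?_, K_cases _ hu'e⟩
    intro v hv
    by_cases hvR : v ∈ Set.range (Subtype.val : W (P.erase M0) → V)
    · obtain ⟨w, rfl⟩ := hvR
      rw [hval w]
      by_cases hwS : w ∈ S
      · exact Or.inr (huS w hwS)
      · exact Or.inl (hu0 w hwS (fun h0 => hv (congrArg Subtype.val h0)))
    · exact Pool.Agent.H19.QM.le_D h.iso hT hQ h.letter ht hu'L hu'e hus hvR
  intro x hx
  obtain ⟨x0, hx0⟩ := hS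
  have hx0e : x0 ≠ ⟨e, heW⟩ := fun h0 => heS (h0 ▸ hx0)
  have hx0ne : x0.1 ≠ e := fun h0 => hx0e (Subtype.ext h0)
  rcases hP.union u' hk M0 hM0 with h1 | h1
  · have h2 := (Pool.Agent.H19.QT.mem_sup.1 (h1 (inM0 x hx))).2
    by_contra hxS
    rw [hval x] at h2
    exact h2 (hu0 x hxS hx)
  · exfalso
    refine Finset.disjoint_left.1 h1 (inM0 x0 hx0e) (Pool.Agent.H19.QT.mem_sup.2 ⟨hx0ne, ?_⟩)
    rw [hval x0, huS x0 hx0]
    exact h.D_ne hx0ne

/-- the root has exactly one neighbour in the tree of the minor -/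
theorem root_nb (h : Hyp L e D) (hP : IsParts L e D P) {M0 : Finset V} (hM0 : M0 ∈ P)
    {t : Finset V → V} (ht : ∀ M ∈ P.erase M0, t M ∈ M) (heW : ∀ M ∈ P.erase M0, e ∉ M)
    {H : W (P.erase M0) → W (P.erase M0) → ZMod 2} (hH : IsMat (N L D (P.erase M0) t) H)
    (hT : (graph (N L D (P.erase M0) t)).IsTree) (hnt : ∃ m : W (P.erase M0), m ≠ ⟨e, heW⟩) :
    ∃ a, a ≠ ⟨e, heW⟩ ∧ ∀ b, (graph (N L D (P.erase M0) t)).Adj ⟨e, heW⟩ b ↔ b = a := by
  classical
  set G := graph (N L D (P.erase M0) t) with hG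
  set r : W (P.erase M0) := ⟨e, heW⟩ with hr
  have hex : ∃ a, G.Adj r a := by
    obtain ⟨m, hm⟩ := hnt
    obtain ⟨p⟩ := hT.connected.preconnected r m
    cases p with
    | nil => exact absurd rfl hm
    | cons hadj _ => exact ⟨_, hadj⟩
  obtain ⟨a, ha⟩ := hex
  have hbr : ¬ (G.deleteEdges {s(a, r)}).Reachable a r := by
    have := (SimpleGraph.isAcyclic_iff_forall_adj_isBridge.1 hT.IsAcyclic) ha.symm
    rwa [SimpleGraph.isBridge_iff] at this
  set S : Finset (W (P.erase M0)) := univ.filter fun x => (G.deleteEdges {s(a, r)}).Reachable a x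
    with hSdef
  have memS : ∀ x, x ∈ S ↔ (G.deleteEdges {s(a, r)}).Reachable a x := by
    intro x
    rw [hSdef, Finset.mem_filter]
    exact ⟨fun h0 => h0.2, fun h0 => ⟨Finset.mem_univ _, h0⟩⟩
  have haS : a ∈ S := (memS a).2 (SimpleGraph.Reachable.refl a)
  have hrS : r ∉ S := fun h0 => hbr ((memS r).1 h0)
  have hstep : ∀ x ∈ S, ∀ y, G.Adj x y → y ∉ S → x = a ∧ y = r := by
    intro x hx y hxy hy
    by_cases hs : s(x, y) = s(a, r)
    · rcases Sym2.eq_iff.1 hs with h1 | h1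
      · exact h1
      · exact absurd (h1.1 ▸ hx) hrS
    · exfalso
      apply hy
      rw [memS]
      refine ((memS x).1 hx).trans (SimpleGraph.Adj.reachable ?_)
      rw [SimpleGraph.deleteEdges_adj]
      exact ⟨hxy, fun h0 => hs h0⟩
  have hall := part_full h hP hM0 ht heW hH S ⟨a, haS⟩ hrS (by
    intro x hx y hy hyr
    by_contra hne
    have h1 : H x y = 1 := by
      revert hne
      generalize H x y = q
      revert q
      decide
    have hxy : x ≠ y := fun h0 => hy (h0 ▸ hx)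
    exact hyr (hstep x hx y ((adj_iff hH x y).2 ⟨hxy, h1⟩) hy).2) (by
    rw [Finset.sum_eq_single a]
    · exact ((adj_iff hH r a).1 ha).2
    · intro x hx hxa
      by_contra hne
      have h1 : H r x = 1 := by
        revert hne
        generalize H r x = q
        revert q
        decide
      have hrx : r ≠ x := fun h0 => hrS (h0 ▸ hx)
      exact hxa (hstep x hx r ((adj_iff hH r x).2 ⟨hrx, h1⟩).symm hrS).1
    · intro h0; exact absurd haS h0)
  refine ⟨a, fun h0 => hrS (h0 ▸ haS), ?_⟩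
  intro b
  constructor
  · intro hb
    have hbr' : b ≠ r := fun h0 => hb.ne h0.symm
    exact (hstep b (hall b hbr') r hb.symm hrS).1
  · rintro rfl
    exact ha

theorem one_of_ne (q : ZMod 2) (hq : q ≠ 0) : q = 1 := by
  revert q; decide

/-- the row of a vertex with exactly one neighbour -/
theorem row_of_nb {X : Type} [Fintype X] {B : Submodule (ZMod 2) (X → K)} (hB : IsCode B) (hz : NoZ B)
    {H : X → X → ZMod 2} (hH : IsMat B H) {r a : X} (hra : r ≠ a) (hnb : ∀ b, (graph B).Adj r b ↔ b = a) :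
    ∃ c ∈ B, (c r).1 = 1 ∧ c a = z ∧ ∀ v, v ≠ r → v ≠ a → c v = 0 := by
  obtain ⟨c, hc, hc1, hc0⟩ := exists_row hB hz r
  have h2 : ∀ v, (c v).2 = H v r := by
    intro v
    rw [(hH.2 c).1 hc v, Finset.sum_eq_single r]
    · rw [hc1, mul_one]
    · intro i _ hi
      rw [hc0 i hi, mul_zero]
    · intro h; exact absurd (Finset.mem_univ r) h
  refine ⟨c, hc, hc1, ?_, ?_⟩
  · apply Prod.ext
    · exact hc0 a hra.symm
    · rw [h2 a]
      exact ((adj_iff hH a r).1 ((hnb a).2 rfl).symm).2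
  · intro v hv hva
    apply Prod.ext
    · exact hc0 v hv
    · rw [h2 v]
      by_contra hne
      exact hva ((hnb v).1 ((adj_iff hH v r).2 ⟨hv, one_of_ne _ hne⟩).symm)

/-- **the adapter**: a code with a full state at `e`, in which every rooted minor of the largest part has
a tree as its graph, has a pointed word with two letters -/
theorem two_letter (hL : IsCode L) (hz1 : (fun _ => z) ∈ L)
    (hz : ∀ u ∈ L, ZOnly u → u = 0 ∨ u = fun _ => z) (h : Hyp L e D) (hD : D ∈ L) (hDe : D e = 0)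
    (hc : ∃ c : V, c ≠ e) (hP : IsParts L e D P)
    (hT : ∀ M0 ∈ P, ∀ t : Finset V → V, (∀ M ∈ P.erase M0, t M ∈ M) →
      IsCode (N L D (P.erase M0) t) → NoZ (N L D (P.erase M0) t) →
      (graph (N L D (P.erase M0) t)).IsTree) :
    ∃ g a b : V, a ≠ b ∧ a ≠ g ∧ b ≠ g ∧
      ∃ c ∈ L, c g = z ∧ (c a).1 = 1 ∧ (c b).1 = 1 ∧ ∀ v, v ≠ g → v ≠ a → v ≠ b → c v = 0 := by
  classical
  obtain ⟨c0, hc0⟩ := hc
  have hPne : P.Nonempty := by
    obtain ⟨M, hM, -⟩ := hP.cover c0 hc0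
    exact ⟨M, hM⟩
  obtain ⟨M0, hM0, hmax⟩ := Finset.exists_max_image P Finset.card hPne
  obtain ⟨M1, hM1, hM10⟩ := exists_other h hP hD hDe hM0
  have hz' : ∀ u ∈ L, ZOnly u → u = 0 ∨ ∀ v, u v = z := by
    intro u hu h0
    rcases hz u hu h0 with h1 | h1
    · exact Or.inl h1
    · exact Or.inr fun v => congrFun h1 v
  have hparts := toParts hP
  have hQ : P.erase M0 ⊆ P := Finset.erase_subset _ _
  have heW : ∀ M ∈ P.erase M0, e ∉ M := fun M hM => (hP.mem M (hQ hM)).2.1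
  have heM0 := (hP.mem M0 hM0).2.1
  have inW : ∀ v, v ∈ M0 → ∀ M ∈ P.erase M0, v ∉ M := by
    intro v hv M hM hvM
    exact Finset.disjoint_left.1 (hP.disj M (hQ hM) M0 hM0 (Finset.ne_of_mem_erase hM)) hvM hv
  obtain ⟨m0, hm0⟩ := Finset.nonempty_iff_ne_empty.2 (hP.mem M0 hM0).1
  have hnt : ∃ m : W (P.erase M0), m ≠ ⟨e, heW⟩ :=
    ⟨⟨m0, inW m0 hm0⟩, fun h0 => heM0 ((show m0 = e from congrArg Subtype.val h0) ▸ hm0)⟩
  -- the minors
  have hN : ∀ t : Finset V → V, (∀ M ∈ P.erase M0, t M ∈ M) →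
      IsCode (N L D (P.erase M0) t) ∧ NoZ (N L D (P.erase M0) t) ∧
        (graph (N L D (P.erase M0) t)).IsTree := by
    intro t ht
    have h1 := Pool.Agent.H19.QM.isCode (h := t) hL hparts hQ h.letter
    have h2 := glob_noZ_N h hP hz' hM0 hM1 hM10 ht
    exact ⟨h1, h2, hT M0 hM0 t ht h1 h2⟩
  have hcode : IsCode (pairCode L D e M0) :=
    minor_isCode hL Subtype.val_injective (fun v _ => h.sig_ne v)
  -- some transversal
  obtain ⟨t, ht⟩ : ∃ t : Finset V → V, ∀ M ∈ P.erase M0, t M ∈ M := by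
    refine ⟨fun M => if hM : M.Nonempty then hM.choose else e, ?_⟩
    intro M hM
    have hne : M.Nonempty := Finset.nonempty_iff_ne_empty.2 (hP.mem M (hQ hM)).1
    simp only [dif_pos hne]
    exact hne.choose_spec
  obtain ⟨h1, h2, h3⟩ := hN t ht
  obtain ⟨H, hH0⟩ := exists_matrix h1 h2
  have hH : IsMat (N L D (P.erase M0) t) H := hH0
  have lower : ∀ u ∈ L, (u e).1 = 0 →
      (∀ v, v ∉ Set.range (Subtype.val : W (P.erase M0) → V) → kf (u v) (sg D (P.erase M0) t v) = 0) →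
      (fun x : {v // v ∈ M0} => u x.1) ∈ pairCode L D e M0 := by
    intro u hu hue hus
    rw [h.mem_pairCode heM0]
    refine ⟨u, hu, ?_, K_cases _ hue, rfl⟩
    intro v hv hve
    obtain ⟨M, hM, hvM⟩ := hP.cover v hve
    have hMne : M ≠ M0 := by
      rintro rfl
      exact hv hvM
    exact Pool.Agent.H19.QM.le_D h.iso hparts hQ h.letter ht hu hue hus
      ((Pool.Agent.H19.QM.nmem_range_iff _ v).2 ⟨M, Finset.mem_erase.2 ⟨hMne, hM⟩, hvM⟩)
  -- no `{0,z}`-words in the pair code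
  have hnoz : NoZ (pairCode L D e M0) := by
    intro a ha hza
    rw [h.mem_pairCode heM0] at ha
    obtain ⟨u, hu, hu1, hu2, rfl⟩ := ha
    funext x
    exact hP.glob_noZ h hz' hM0 hM1 hM10 hu hu1 hu2 (fun v hv => hza ⟨v, hv⟩) x.1 x.2
  refine two_letter_core hL hz1 h hP hM0 hmax ⟨M1, hM1, hM10⟩ hcode hnoz ?_ heW ?_
  · -- a leaf of the pair code
    set G := graph (N L D (P.erase M0) t) with hG
    haveI : Nontrivial (W (P.erase M0)) := by
      obtain ⟨m, hm⟩ := hnt
      exact ⟨m, ⟨e, heW⟩, hm⟩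
    obtain ⟨l, hl, hldeg⟩ : ∃ l : W (P.erase M0), l ≠ ⟨e, heW⟩ ∧ G.degree l = 1 := by
      obtain ⟨u, v, huv, hu1, hv1⟩ := h3.exists_ne_and_degree_eq_one
      by_cases hu : u = ⟨e, heW⟩
      · exact ⟨v, fun h0 => huv (hu.trans h0.symm), hv1⟩
      · exact ⟨u, hu, hu1⟩
    obtain ⟨p, hp, hpu⟩ := SimpleGraph.degree_eq_one_iff_existsUnique_adj.1 hldeg
    have hlp : l ≠ p := hp.ne
    have hnb : ∀ b, G.Adj l b ↔ b = p := fun b => ⟨fun hb => hpu b hb, fun hb => hb ▸ hp⟩
    have hlM0 : l.1 ∈ M0 := by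
      have hle : l.1 ≠ e := fun h0 => hl (Subtype.ext h0)
      obtain ⟨M, hM, hlM⟩ := hP.cover l.1 hle
      by_contra hne
      refine l.2 M (Finset.mem_erase.2 ⟨?_, hM⟩) hlM
      rintro rfl
      exact hne hlM
    have hpe : p ≠ ⟨e, heW⟩ := by
      intro hpe
      have hall := part_full h hP hM0 ht heW hH {l} (Finset.singleton_nonempty l)
        (fun h0 => hl (Finset.mem_singleton.1 h0).symm) (by
          intro x hx y hy hye
          rw [Finset.mem_singleton.1 hx]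
          by_contra hne
          have hly : l ≠ y := fun h0 => hy (Finset.mem_singleton.2 h0.symm)
          exact hye (((hnb y).1 ((adj_iff hH l y).2 ⟨hly, one_of_ne _ hne⟩)).trans hpe)) (by
          rw [Finset.sum_singleton, ← hpe]
          exact ((adj_iff hH p l).1 hp.symm).2)
      have hM0l : M0 = {l.1} := by
        ext v
        rw [Finset.mem_singleton]
        constructor
        · intro hv
          have := hall ⟨v, inW v hv⟩ (fun h0 => heM0 ((show v = e from congrArg Subtype.val h0) ▸ hv))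
          exact congrArg Subtype.val (Finset.mem_singleton.1 this)
        · intro hv
          rw [hv]; exact hlM0
      have hev := even_card h hP hz1 hM0
      rw [hM0l, Finset.card_singleton] at hev
      exact absurd hev (by decide)
    have hpM0 : p.1 ∈ M0 := by
      have hpe' : p.1 ≠ e := fun h0 => hpe (Subtype.ext h0)
      obtain ⟨M, hM, hpM⟩ := hP.cover p.1 hpe'
      by_contra hne
      refine p.2 M (Finset.mem_erase.2 ⟨?_, hM⟩) hpM
      rintro rfl
      exact hne hpM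
    obtain ⟨c, ⟨u, hu, hus, rfl⟩, hcl, hcp, hc0'⟩ := row_of_nb h1 h2 hH hlp hnb
    have hue : (u e).1 = 0 := by
      have := hc0' ⟨e, heW⟩ (Ne.symm hl) (Ne.symm hpe)
      have h5 : u e = 0 := this
      rw [h5]; rfl
    refine ⟨⟨l.1, hlM0⟩, ⟨p.1, hpM0⟩, fun h0 => hlp (Subtype.ext (Subtype.mk.inj h0)),
      fun x => u x.1, lower u hu hue hus, hcl, hcp, ?_⟩
    rintro ⟨v, hv⟩ hvl hvp
    exact hc0' ⟨v, inW v hv⟩ (fun h0 => hvl (Subtype.ext (show v = l.1 from congrArg Subtype.val h0)))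
      (fun h0 => hvp (Subtype.ext (show v = p.1 from congrArg Subtype.val h0)))
  · intro t' ht'
    obtain ⟨g1, g2, g3⟩ := hN t' ht'
    obtain ⟨H', hH0'⟩ := exists_matrix g1 g2
    have hH' : IsMat (N L D (P.erase M0) t') H' := hH0'
    obtain ⟨a, hae, hnb⟩ := root_nb h hP hM0 ht' heW hH' g3 hnt
    obtain ⟨c, hc, hc1, hca, hc0'⟩ := row_of_nb g1 g2 hH' (Ne.symm hae) hnb
    exact ⟨a, hae, c, hc, hc1, hca, hc0'⟩

end Pool.Agent.H19.QC
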